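import Mathlib

set_option autoImplicit false

namespace Pool.Agent.Results.MP_8cd00c_co.LargeGirthGap

open SimpleGraph

/-- the edge colouring `c` is woody: no cycle of `G` is monochromatic -/
def IsWoody {V : Type} (G : SimpleGraph V) {k : ℕ} (c : G.edgeSet → Fin k) : Prop :=
  ∀ (v : V) (p : G.Walk v v), p.IsCycle →
    ¬ ∃ a : Fin k, ∀ f : G.edgeSet, f.1 ∈ p.edges → c f = a

/-- the edge colouring `c` is strongly woody: no broken cycle `C - e` of `G` is monochromatic -/
def IsStronglyWoody {V : Type} (G : SimpleGraph V) {k : ℕ} (c : G.edgeSet → Fin k) : Prop :=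
  ∀ (v : V) (p : G.Walk v v), p.IsCycle → ∀ e ∈ p.edges,
    ¬ ∃ a : Fin k, ∀ f : G.edgeSet, f.1 ∈ p.edges → f.1 ≠ e → c f = a

/-- arboricity -/
noncomputable def arb {V : Type} (G : SimpleGraph V) : ℕ :=
  sInf {k : ℕ | ∃ c : G.edgeSet → Fin k, IsWoody G c}

/-- strong arboricity `ζ(G)` -/
noncomputable def strongArb {V : Type} (G : SimpleGraph V) : ℕ :=
  sInf {k : ℕ | ∃ c : G.edgeSet → Fin k, IsStronglyWoody G c}

/-! ### Colour classes -/

/-- the subgraph formed by the edges of colour `i` -/
def cls {V : Type} (G : SimpleGraph V) {k : ℕ} (d : Sym2 V → Fin k) (i : Fin k) : SimpleGraph V where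
  Adj u v := G.Adj u v ∧ d s(u, v) = i
  symm := ⟨fun u v h => ⟨h.1.symm, by rw [Sym2.eq_swap]; exact h.2⟩⟩
  loopless := ⟨fun u h => G.loopless.irrefl u h.1⟩

lemma cls_le {V : Type} (G : SimpleGraph V) {k : ℕ} (d : Sym2 V → Fin k) (i : Fin k) :
    cls G d i ≤ G := fun _ _ h => h.1

lemma mem_cls_edgeSet {V : Type} (G : SimpleGraph V) {k : ℕ} (d : Sym2 V → Fin k) (i : Fin k)
    (e : Sym2 V) : e ∈ (cls G d i).edgeSet ↔ e ∈ G.edgeSet ∧ d e = i := by
  induction e with
  | _ u v => exact Iff.rfl

/-- the graph decomposes into `k` forests -/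
def Dec {V : Type} (G : SimpleGraph V) (k : ℕ) : Prop :=
  ∃ d : Sym2 V → Fin k, ∀ i, (cls G d i).IsAcyclic

lemma dec_of_woody {V : Type} (G : SimpleGraph V) {k : ℕ} (hk : 1 ≤ k) (c : G.edgeSet → Fin k)
    (hc : IsWoody G c) : Dec G k := by
  classical
  refine ⟨fun e => if h : e ∈ G.edgeSet then c ⟨e, h⟩ else ⟨0, by omega⟩, ?_⟩
  intro i v p hp
  have hle := cls_le G (fun e => if h : e ∈ G.edgeSet then c ⟨e, h⟩ else ⟨0, by omega⟩) i
  apply hc v (p.mapLe hle) ((Walk.isCycle_mapLe hle).2 hp)
  refine ⟨i, ?_⟩
  intro f hf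
  rw [Walk.edges_mapLe_eq_edges] at hf
  have h1 := p.edges_subset_edgeSet hf
  rw [mem_cls_edgeSet] at h1
  have h2 := h1.2
  rw [dif_pos f.2] at h2
  exact h2

lemma woody_of_dec {V : Type} (G : SimpleGraph V) {k : ℕ} (h : Dec G k) :
    ∃ c : G.edgeSet → Fin k, IsWoody G c := by
  obtain ⟨d, hd⟩ := h
  refine ⟨fun e => d e.1, ?_⟩
  rintro v p hp ⟨a, ha⟩
  have hq : ∀ e ∈ p.edges, e ∈ (cls G d a).edgeSet := by
    intro e he
    rw [mem_cls_edgeSet]
    have := p.edges_subset_edgeSet he
    exact ⟨this, ha ⟨e, this⟩ he⟩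
  exact hd a _ (hp.transfer hq)

/-- in a strongly woody colouring, the ends of an edge of another colour are not joined inside a
colour class -/
lemma not_reachable_of_strong {V : Type} (G : SimpleGraph V) {k : ℕ} (c : G.edgeSet → Fin k)
    (hc : IsStronglyWoody G c) (d : Sym2 V → Fin k) (hd : ∀ e : G.edgeSet, d e.1 = c e)
    (i : Fin k) {u w : V} (huw : G.Adj u w) (hi : d s(u, w) ≠ i) :
    ¬ (cls G d i).Reachable u w := by
  classical
  intro hr
  obtain ⟨q, hq⟩ := hr.symm.exists_isPath
  have hle := cls_le G d i
  have hne : s(u, w) ∉ (q.mapLe hle).edges := by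
    rw [Walk.edges_mapLe_eq_edges]
    intro h
    have := q.edges_subset_edgeSet h
    rw [mem_cls_edgeSet] at this
    exact hi this.2
  have hcyc : (Walk.cons huw (q.mapLe hle)).IsCycle := by
    rw [Walk.cons_isCycle_iff]
    exact ⟨(Walk.isPath_mapLe hle).2 hq, hne⟩
  apply hc u _ hcyc s(u, w) (by simp)
  refine ⟨i, ?_⟩
  intro f hf hfe
  rw [Walk.edges_cons, List.mem_cons] at hf
  rcases hf with hf | hf
  · exact absurd hf hfe
  · rw [Walk.edges_mapLe_eq_edges] at hf
    have := q.edges_subset_edgeSet hf
    rw [mem_cls_edgeSet] at this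
    rw [← hd f]
    exact this.2

lemma woody_of_strong {V : Type} (G : SimpleGraph V) {k : ℕ} (c : G.edgeSet → Fin k)
    (hc : IsStronglyWoody G c) : IsWoody G c := by
  rintro v p hp ⟨a, ha⟩
  have h3 := hp.three_le_length
  have h4 : p.edges ≠ [] := by
    intro h
    have h5 : p.edges.length = 0 := by rw [h]; rfl
    rw [Walk.length_edges] at h5
    omega
  obtain ⟨e, he⟩ := List.exists_mem_of_ne_nil _ h4
  exact hc v p hp e he ⟨a, fun f hf _ => ha f hf⟩

/-- Exchange argument: if `H` is not a union of `k ≥ 2` forests but `H` minus the edge `uv` is, then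
`H` minus `uv` has no strongly woody `k`-colouring. -/
lemma exchange {V : Type} (H G : SimpleGraph V) {k : ℕ} (hk : 2 ≤ k) (u v : V) (huv : H.Adj u v)
    (hGadj : ∀ x y, G.Adj x y ↔ H.Adj x y ∧ s(x, y) ≠ s(u, v))
    (hH : ¬ Dec H k) (c : G.edgeSet → Fin k) :
    ¬ IsStronglyWoody G c := by
  classical
  intro hc
  -- total colouring
  let i0 : Fin k := ⟨0, by omega⟩
  let i1 : Fin k := ⟨1, by omega⟩
  have hi01 : i0 ≠ i1 := by
    intro h
    have := congrArg Fin.val h
    simp [i0, i1] at this
  let d : Sym2 V → Fin k := fun e => if h : e ∈ G.edgeSet then c ⟨e, h⟩ else i0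
  have hd : ∀ e : G.edgeSet, d e.1 = c e := by
    intro e
    show (if h : e.1 ∈ G.edgeSet then c ⟨e.1, h⟩ else i0) = c e
    rw [dif_pos e.2]
  have hacyc : ∀ i, (cls G d i).IsAcyclic := by
    intro i w p hp
    have hle := cls_le G d i
    apply woody_of_strong G c hc w (p.mapLe hle) ((Walk.isCycle_mapLe hle).2 hp)
    refine ⟨i, ?_⟩
    intro f hf
    rw [Walk.edges_mapLe_eq_edges] at hf
    have := p.edges_subset_edgeSet hf
    rw [mem_cls_edgeSet] at this
    rw [← hd f]; exact this.2
  -- adding the edge uv with colour i to a forest decomposition in which u, v are separated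
  have add : ∀ d' : Sym2 V → Fin k, (∀ i, (cls G d' i).IsAcyclic) → ∀ i : Fin k,
      (cls G d' i).Reachable u v := by
    intro d' hd' i
    by_contra hnr
    apply hH
    refine ⟨Function.update d' s(u, v) i, ?_⟩
    intro j
    by_cases hj : j = i
    · subst hj
      have : cls H (Function.update d' s(u, v) j) j ≤ cls G d' j ⊔ edge u v := by
        intro x y hxy
        rw [sup_adj]
        by_cases hxe : s(x, y) = s(u, v)
        · right
          rw [edge_adj]
          refine ⟨?_, hxy.1.ne⟩
          simpa using hxe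
        · left
          refine ⟨(hGadj x y).2 ⟨hxy.1, hxe⟩, ?_⟩
          have := hxy.2
          rwa [Function.update_of_ne hxe] at this
      exact IsAcyclic.anti this ((isAcyclic_add_edge_iff_of_not_reachable u v hnr).2 (hd' j))
    · have : cls H (Function.update d' s(u, v) i) j ≤ cls G d' j := by
        intro x y hxy
        have hxe : s(x, y) ≠ s(u, v) := by
          intro h
          have := hxy.2
          rw [h, Function.update_self] at this
          exact hj this.symm
        refine ⟨(hGadj x y).2 ⟨hxy.1, hxe⟩, ?_⟩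
        have := hxy.2
        rwa [Function.update_of_ne hxe] at this
      exact IsAcyclic.anti this (hd' j)
  -- a path from u to v in colour 0
  have hr := add d hacyc i0
  obtain ⟨p, hp⟩ := hr.exists_isPath
  cases p with
  | nil => exact huv.ne rfl
  | @cons _ w _ h q =>
    have hGuw : G.Adj u w := h.1
    have hduw : d s(u, w) = i0 := h.2
    have hnr1 : ¬ (cls G d i1).Reachable u w :=
      not_reachable_of_strong G c hc d hd i1 hGuw (by rw [hduw]; exact hi01)
    -- recolour uw with colour 1
    let d' : Sym2 V → Fin k := Function.update d s(u, w) i1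
    have hd'acyc : ∀ i, (cls G d' i).IsAcyclic := by
      intro j
      by_cases hj : j = i1
      · subst hj
        have : cls G d' i1 ≤ cls G d i1 ⊔ edge u w := by
          intro x y hxy
          rw [sup_adj]
          by_cases hxe : s(x, y) = s(u, w)
          · right
            rw [edge_adj]
            refine ⟨?_, hxy.1.ne⟩
            simpa using hxe
          · left
            refine ⟨hxy.1, ?_⟩
            have := hxy.2
            rwa [show d' s(x, y) = d s(x, y) from Function.update_of_ne hxe _ _] at this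
        exact IsAcyclic.anti this ((isAcyclic_add_edge_iff_of_not_reachable u w hnr1).2 (hacyc i1))
      · have : cls G d' j ≤ cls G d j := by
          intro x y hxy
          have hxe : s(x, y) ≠ s(u, w) := by
            intro h
            have := hxy.2
            rw [h, show d' s(u, w) = i1 from Function.update_self _ _ _] at this
            exact hj this.symm
          refine ⟨hxy.1, ?_⟩
          have := hxy.2
          rwa [show d' s(x, y) = d s(x, y) from Function.update_of_ne hxe _ _] at this
        exact IsAcyclic.anti this (hacyc j)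
    have hr' := add d' hd'acyc i0
    -- u reaches w in colour 0 without the edge uw
    have hqsub : ∀ e ∈ q.edges, e ∈ (cls G d' i0).edgeSet := by
      intro e he
      have h1 := q.edges_subset_edgeSet he
      rw [mem_cls_edgeSet] at h1 ⊢
      refine ⟨h1.1, ?_⟩
      have hne : e ≠ s(u, w) := by
        rintro rfl
        have hsup := Walk.fst_mem_support_of_mem_edges q he
        rw [Walk.cons_isPath_iff] at hp
        exact hp.2 hsup
      rw [show d' e = d e from Function.update_of_ne hne _ _]
      exact h1.2
    have hwv : (cls G d' i0).Reachable w v := ⟨q.transfer _ hqsub⟩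
    have huw' : (cls G d' i0).Reachable u w := hr'.trans hwv.symm
    -- but uw is a bridge of the colour 0 forest
    have hbr := (isAcyclic_iff_forall_adj_isBridge.1 (hacyc i0)) h
    rw [isBridge_iff] at hbr
    apply hbr
    refine huw'.mono ?_
    intro x y hxy
    rw [deleteEdges_adj]
    have hxe : s(x, y) ≠ s(u, w) := by
      intro he
      have := hxy.2
      rw [he, show d' s(u, w) = i1 from Function.update_self _ _ _] at this
      exact hi01 this.symm
    refine ⟨⟨hxy.1, ?_⟩, by simpa using hxe⟩
    have := hxy.2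
    rwa [show d' s(x, y) = d s(x, y) from Function.update_of_ne hxe _ _] at this

/-! ### Dense graphs of large girth -/

lemma le_egirth_sup_edge {V : Type} (G : SimpleGraph V) (x y : V) (hxy : x ≠ y) (g : ℕ)
    (hG : (g : ℕ∞) ≤ G.egirth) (hw : ∀ p : G.Walk x y, g ≤ p.length + 1) :
    (g : ℕ∞) ≤ (G ⊔ edge x y).egirth := by
  classical
  rw [le_egirth] at hG ⊢
  intro a w hcyc
  have hsub : ∀ e : Sym2 V, e ∈ (G ⊔ edge x y).edgeSet → e ≠ s(x, y) → e ∈ G.edgeSet := by
    intro e he hne
    induction e with
    | _ u v =>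
      rw [mem_edgeSet, sup_adj] at he
      rcases he with he | he
      · exact he
      · exfalso
        rw [edge_adj] at he
        apply hne
        simpa using he.1
  by_cases hmem : s(x, y) ∈ w.edges
  · have hx : x ∈ w.support := w.fst_mem_support_of_mem_edges hmem
    let c := w.rotate x hx
    have hc : c.IsCycle := hcyc.rotate hx
    have hcl : c.length = w.length := by
      have := (w.rotate_edges x hx).perm.length_eq
      rwa [Walk.length_edges, Walk.length_edges] at this
    have hmem' : s(x, y) ∈ c.edges := (w.rotate_edges x hx).perm.mem_iff.2 hmem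
    have hy : y ∈ c.support := c.snd_mem_support_of_mem_edges hmem'
    have hspec := c.take_spec hy
    have hedges : c.edges = (c.takeUntil y hy).edges ++ (c.dropUntil y hy).edges := by
      rw [← Walk.edges_append, hspec]
    have hlen : c.length = (c.takeUntil y hy).length + (c.dropUntil y hy).length := by
      rw [← Walk.length_append, hspec]
    have hnd : c.edges.Nodup := hc.edges_nodup
    rw [hedges, List.nodup_append'] at hnd
    have h1 : 1 ≤ (c.takeUntil y hy).length := by
      by_contra h0
      have h0' : (c.takeUntil y hy).length = 0 := by omega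
      exact hxy (Walk.eq_of_length_eq_zero h0')
    have h2 : 1 ≤ (c.dropUntil y hy).length := by
      by_contra h0
      have h0' : (c.dropUntil y hy).length = 0 := by omega
      exact hxy (Walk.eq_of_length_eq_zero h0').symm
    have key : g ≤ w.length := by
      by_cases hin : s(x, y) ∈ (c.takeUntil y hy).edges
      · have hnin : s(x, y) ∉ (c.dropUntil y hy).edges := fun h => hnd.2.2 hin h
        have htr : ∀ e ∈ (c.dropUntil y hy).edges, e ∈ G.edgeSet := by
          intro e he
          exact hsub e ((c.dropUntil y hy).edges_subset_edgeSet he) (by rintro rfl; exact hnin he)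
        have := hw ((c.dropUntil y hy).transfer G htr).reverse
        rw [Walk.length_reverse, Walk.length_transfer] at this
        omega
      · have htr : ∀ e ∈ (c.takeUntil y hy).edges, e ∈ G.edgeSet := by
          intro e he
          exact hsub e ((c.takeUntil y hy).edges_subset_edgeSet he) (by rintro rfl; exact hin he)
        have := hw ((c.takeUntil y hy).transfer G htr)
        rw [Walk.length_transfer] at this
        omega
    exact_mod_cast key
  · have htr : ∀ e ∈ w.edges, e ∈ G.edgeSet := by
      intro e he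
      exact hsub e (w.edges_subset_edgeSet he) (by rintro rfl; exact hmem he)
    have := hG a (w.transfer G htr) (hcyc.transfer htr)
    rwa [Walk.length_transfer] at this

open Classical in
/-- vertices reachable by a walk of length at most `r` -/
noncomputable def ball {N : ℕ} (G : SimpleGraph (Fin N)) : ℕ → Fin N → Finset (Fin N)
  | 0, x => {x}
  | r + 1, x => insert x ((G.neighborFinset x).biUnion (ball G r))

open Classical in
lemma ball_card {N : ℕ} (G : SimpleGraph (Fin N)) (D : ℕ) (hD : ∀ v, G.degree v ≤ D) (r : ℕ) :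
    ∀ x, (ball G r x).card ≤ (D + 1) ^ r := by
  induction r with
  | zero => intro x; simp [ball]
  | succ r ih =>
    intro x
    rw [ball]
    calc (insert x ((G.neighborFinset x).biUnion (ball G r))).card
        ≤ ((G.neighborFinset x).biUnion (ball G r)).card + 1 := Finset.card_insert_le _ _
      _ ≤ (G.neighborFinset x).card * (D + 1) ^ r + 1 := by
          gcongr
          exact Finset.card_biUnion_le_card_mul _ _ _ (fun v _ => ih v)
      _ ≤ D * (D + 1) ^ r + (D + 1) ^ r := by
          have h1 : (G.neighborFinset x).card ≤ D := hD x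
          have h2 : 1 ≤ (D + 1) ^ r := Nat.one_le_pow _ _ (by omega)
          exact Nat.add_le_add (Nat.mul_le_mul_right _ h1) h2
      _ = (D + 1) ^ (r + 1) := by ring

lemma self_mem_ball {N : ℕ} (G : SimpleGraph (Fin N)) (r : ℕ) (x : Fin N) : x ∈ ball G r x := by
  cases r <;> simp [ball]

lemma mem_ball_of_walk {N : ℕ} (G : SimpleGraph (Fin N)) {x y : Fin N} (p : G.Walk x y) :
    ∀ r, p.length ≤ r → y ∈ ball G r x := by
  classical
  induction p with
  | nil => intro r _; exact self_mem_ball G r _
  | cons h q ih =>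
    intro r hr
    cases r with
    | zero => simp at hr
    | succ r =>
      rw [ball, Finset.mem_insert]
      right
      rw [Finset.mem_biUnion]
      refine ⟨_, ?_, ih r (by simpa using hr)⟩
      rw [mem_neighborFinset]
      exact h

open Classical in
lemma degree_sup_edge {N : ℕ} (G H : SimpleGraph (Fin N)) (D : ℕ) (hD : ∀ v, G.degree v ≤ D)
    (x y : Fin N) (hH : H = G ⊔ edge x y) (hx : G.degree x < D) (hy : G.degree y < D) (v : Fin N) :
    H.degree v ≤ D := by
  by_cases hvx : v = x
  · subst hvx
    have hsub : H.neighborFinset v ⊆ insert y (G.neighborFinset v) := by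
      intro z hz
      rw [mem_neighborFinset, hH, sup_adj, edge_adj] at hz
      rw [Finset.mem_insert, mem_neighborFinset]
      rcases hz with hz | ⟨hz | hz, hne⟩
      · exact Or.inr hz
      · exact Or.inl hz.2
      · exact absurd hz.2.symm hne
    have h1 := (Finset.card_le_card hsub).trans (Finset.card_insert_le _ _)
    rw [card_neighborFinset_eq_degree, card_neighborFinset_eq_degree] at h1
    omega
  · by_cases hvy : v = y
    · subst hvy
      have hsub : H.neighborFinset v ⊆ insert x (G.neighborFinset v) := by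
        intro z hz
        rw [mem_neighborFinset, hH, sup_adj, edge_adj] at hz
        rw [Finset.mem_insert, mem_neighborFinset]
        rcases hz with hz | ⟨hz | hz, hne⟩
        · exact Or.inr hz
        · exact absurd hz.1 hvx
        · exact Or.inl hz.2
      have h1 := (Finset.card_le_card hsub).trans (Finset.card_insert_le _ _)
      rw [card_neighborFinset_eq_degree, card_neighborFinset_eq_degree] at h1
      omega
    · have hsub : H.neighborFinset v ⊆ G.neighborFinset v := by
        intro z hz
        rw [mem_neighborFinset, hH, sup_adj, edge_adj] at hz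
        rw [mem_neighborFinset]
        rcases hz with hz | ⟨hz | hz, hne⟩
        · exact hz
        · exact absurd hz.1 hvx
        · exact absurd hz.1 hvy
      have h1 := Finset.card_le_card hsub
      rw [card_neighborFinset_eq_degree, card_neighborFinset_eq_degree] at h1
      exact h1.trans (hD v)

open Classical in
/-- the degree sum of a maximal graph of maximum degree `≤ D` and girth `≥ g` is large -/
lemma exists_large_girth (D g N : ℕ) : ∃ G : SimpleGraph (Fin N), (g : ℕ∞) ≤ G.egirth ∧
    D * N ≤ (∑ v, G.degree v) + D * (D + 1) ^ (g + 1) := by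
  let P : SimpleGraph (Fin N) → Prop := fun G => (∀ v, G.degree v ≤ D) ∧ (g : ℕ∞) ≤ G.egirth
  have hbot : P ⊥ := by
    refine ⟨?_, ?_⟩
    · intro v; simp
    · simp
  obtain ⟨G, -, hG⟩ := exists_maximal_ge_of_wellFoundedGT P ⊥ hbot
  refine ⟨G, hG.1.2, ?_⟩
  have hdeg := hG.1.1
  -- deficient vertices
  let S : Finset (Fin N) := Finset.univ.filter (fun v => G.degree v < D)
  have hS : S.card ≤ (D + 1) ^ (g + 1) := by
    by_cases hne : S.Nonempty
    · obtain ⟨x, hx⟩ := hne
      have hxd : G.degree x < D := (Finset.mem_filter.1 hx).2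
      have hsub : S ⊆ ball G (g + 1) x := by
        intro y hy
        have hyd : G.degree y < D := (Finset.mem_filter.1 hy).2
        by_contra hyb
        have hxy : x ≠ y := by rintro rfl; exact hyb (self_mem_ball G _ _)
        have hnadj : ¬ G.Adj x y := by
          intro h
          exact hyb (mem_ball_of_walk G (Walk.cons h Walk.nil) _ (by simp))
        have hP : P (G ⊔ edge x y) := by
          refine ⟨degree_sup_edge G _ D hdeg x y rfl hxd hyd, ?_⟩
          apply le_egirth_sup_edge G x y hxy g hG.1.2
          intro p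
          by_contra hlt
          exact hyb (mem_ball_of_walk G p _ (by omega))
        have := hG.2 hP le_sup_left
        apply hnadj
        apply this
        rw [sup_adj, edge_adj]
        exact Or.inr ⟨Or.inl ⟨rfl, rfl⟩, hxy⟩
      exact (Finset.card_le_card hsub).trans (ball_card G D hdeg _ x)
    · rw [Finset.not_nonempty_iff_eq_empty] at hne
      rw [hne]; simp
  have h1 : ∑ v : Fin N, D ≤ ∑ v : Fin N, (G.degree v + if v ∈ S then D else 0) := by
    apply Finset.sum_le_sum
    intro v _
    by_cases hv : v ∈ S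
    · simp [hv]
    · have : ¬ G.degree v < D := fun h => hv (Finset.mem_filter.2 ⟨Finset.mem_univ _, h⟩)
      simp only [hv, if_false]
      omega
  rw [Finset.sum_add_distrib, ← Finset.sum_filter, Finset.sum_const, Finset.sum_const,
    Finset.card_univ, Fintype.card_fin, smul_eq_mul, smul_eq_mul] at h1
  have h2 : (Finset.univ.filter (fun v => v ∈ S)) = S := by ext; simp
  rw [h2] at h1
  calc D * N = N * D := Nat.mul_comm _ _
    _ ≤ _ := h1
    _ ≤ _ := by
      have := Nat.mul_le_mul_right D hS
      rw [Nat.mul_comm ((D + 1) ^ (g + 1)) D] at this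
      omega

/-- an acyclic graph on `N` vertices has at most `N` edges -/
lemma acyclic_card {N : ℕ} (F : SimpleGraph (Fin N)) [Fintype F.edgeSet] (hF : F.IsAcyclic) :
    F.edgeFinset.card ≤ N := by
  classical
  rcases Nat.eq_zero_or_pos N with h0 | hpos
  · subst h0
    have : F.edgeFinset = ∅ := by
      rw [Finset.eq_empty_iff_forall_notMem]
      intro e he
      induction e with
      | _ u v => exact u.elim0
    rw [this]; simp
  · have : Nonempty (Fin N) := ⟨⟨0, hpos⟩⟩
    obtain ⟨T, hFT, -, hT⟩ := (connected_top (V := Fin N)).exists_isTree_le_of_le_of_isAcyclic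
      (le_top : F ≤ ⊤) hF
    have h1 := hT.card_edgeFinset
    rw [Fintype.card_fin] at h1
    have h2 : F.edgeFinset ⊆ T.edgeFinset := by
      intro e he
      rw [mem_edgeFinset] at he ⊢
      induction e with
      | _ u v =>
        rw [mem_edgeSet] at he ⊢
        exact hFT he
    have := Finset.card_le_card h2
    omega

lemma dec_card {N k : ℕ} (G : SimpleGraph (Fin N)) [Fintype G.edgeSet] (h : Dec G k) :
    G.edgeFinset.card ≤ k * N := by
  classical
  obtain ⟨d, hd⟩ := h
  have h1 : G.edgeFinset ⊆ (Finset.univ : Finset (Fin k)).biUnion (fun i => (cls G d i).edgeFinset) := by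
    intro e he
    rw [Finset.mem_biUnion]
    refine ⟨d e, Finset.mem_univ _, ?_⟩
    rw [mem_edgeFinset] at he ⊢
    rw [mem_cls_edgeSet]
    exact ⟨he, rfl⟩
  calc G.edgeFinset.card ≤ _ := Finset.card_le_card h1
    _ ≤ (Finset.univ : Finset (Fin k)).card * N :=
        Finset.card_biUnion_le_card_mul _ _ _ (fun i _ => acyclic_card _ (hd i))
    _ = k * N := by rw [Finset.card_univ, Fintype.card_fin]

/-- there are graphs of girth `≥ g` that are not unions of `k` forests -/
lemma exists_not_dec (k g : ℕ) : ∃ (N : ℕ) (G : SimpleGraph (Fin N)),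
    (g : ℕ∞) ≤ G.egirth ∧ ¬ Dec G k := by
  classical
  let D := 2 * k + 1
  let C := D * (D + 1) ^ (g + 1)
  obtain ⟨G, hg, hG⟩ := exists_large_girth D g (C + 1)
  refine ⟨C + 1, G, hg, ?_⟩
  intro h
  have h1 := dec_card G h
  have h2 := G.sum_degrees_eq_twice_card_edges
  have h3 : D * (C + 1) ≤ 2 * (k * (C + 1)) + C := by
    calc D * (C + 1) ≤ (∑ v, G.degree v) + C := hG
      _ ≤ _ := by rw [h2]; omega
  have h4 : D * (C + 1) = 2 * (k * (C + 1)) + (C + 1) := by
    show (2 * k + 1) * (C + 1) = _
    ring
  omega

/-! ### Conclusion -/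

lemma not_dec_mono {V : Type} (G : SimpleGraph V) {k m : ℕ} (hmk : m ≤ k) (h : Dec G m) :
    Dec G k := by
  classical
  obtain ⟨d, hd⟩ := h
  refine ⟨fun e => (d e).castLE hmk, ?_⟩
  intro i
  by_cases hi : ∃ j : Fin m, j.castLE hmk = i
  · obtain ⟨j, rfl⟩ := hi
    apply IsAcyclic.anti _ (hd j)
    intro x y hxy
    exact ⟨hxy.1, Fin.castLE_injective hmk hxy.2⟩
  · have : cls G (fun e => (d e).castLE hmk) i ≤ ⊥ := by
      intro x y hxy
      exact absurd ⟨_, hxy.2⟩ hi
    exact IsAcyclic.anti this isAcyclic_bot

lemma strong_mono {V : Type} (G : SimpleGraph V) {k m : ℕ} (hmk : m ≤ k)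
    (c : G.edgeSet → Fin m) (hc : IsStronglyWoody G c) :
    IsStronglyWoody G (fun e => (c e).castLE hmk) := by
  rintro v p hp e he ⟨a, ha⟩
  have h3 := hp.three_le_length
  -- some edge of the broken cycle
  have hnd := hp.edges_nodup
  obtain ⟨f, hf, hfe⟩ : ∃ f ∈ p.edges, f ≠ e := by
    by_contra hcon
    push Not at hcon
    have hsub : p.edges ⊆ [e] := by
      intro x hx
      rw [hcon x hx]; simp
    have := (hnd.subperm hsub).length_le
    rw [Walk.length_edges] at this
    simp at this
    omega
  have hf' := p.edges_subset_edgeSet hf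
  apply hc v p hp e he
  refine ⟨c ⟨f, hf'⟩, ?_⟩
  intro x hx hxe
  have h1 := ha x hx hxe
  have h2 := ha ⟨f, hf'⟩ hf hfe
  exact Fin.castLE_injective hmk (h1.trans h2.symm)

/-- an injective edge colouring is strongly woody -/
lemma exists_strong {N : ℕ} (G : SimpleGraph (Fin N)) :
    ∃ (m : ℕ) (c : G.edgeSet → Fin m), IsStronglyWoody G c := by
  classical
  refine ⟨Fintype.card G.edgeSet, Fintype.equivFin G.edgeSet, ?_⟩
  rintro v p hp e he ⟨a, ha⟩
  have h3 := hp.three_le_length
  have hnd := hp.edges_nodup
  have hall : ∀ x ∈ p.edges, ∀ y ∈ p.edges, x ≠ e → y ≠ e → x = y := by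
    intro x hx y hy hxe hye
    have h1 := ha ⟨x, p.edges_subset_edgeSet hx⟩ hx hxe
    have h2 := ha ⟨y, p.edges_subset_edgeSet hy⟩ hy hye
    have := (Fintype.equivFin G.edgeSet).injective (h1.trans h2.symm)
    exact congrArg Subtype.val this
  obtain ⟨f, hf, hfe⟩ : ∃ f ∈ p.edges, f ≠ e := by
    by_contra hcon
    push Not at hcon
    have hsub : p.edges ⊆ [e] := by
      intro x hx
      rw [hcon x hx]; simp
    have := (hnd.subperm hsub).length_le
    rw [Walk.length_edges] at this
    simp at this
    omega
  have hsub : p.edges ⊆ [e, f] := by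
    intro x hx
    by_cases hxe : x = e
    · rw [hxe]; simp
    · rw [hall x hx f hf hxe hfe]; simp
  have := (hnd.subperm hsub).length_le
  rw [Walk.length_edges] at this
  simp at this
  omega

/-- For every `k ≥ 2` and every `g` there is a finite graph `G` of arboricity at most `k` and girth at
least `g` with `ζ(G) > arb(G)`. -/
theorem result : ∀ k : ℕ, 2 ≤ k → ∀ g : ℕ, ∃ (V : Type) (_ : Fintype V) (G : SimpleGraph V),
    arb G ≤ k ∧ (g : ℕ∞) ≤ G.egirth ∧ arb G < strongArb G := by
  classical
  intro k hk g
  obtain ⟨N, H₀, hg₀, hH₀⟩ := exists_not_dec k g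
  obtain ⟨H, hle, hH⟩ := exists_minimal_le_of_wellFoundedLT (fun G => ¬ Dec G k) H₀ hH₀
  -- H has an edge
  obtain ⟨u, v, huv⟩ : ∃ u v, H.Adj u v := by
    by_contra hcon
    push Not at hcon
    apply hH.1
    refine ⟨fun _ => ⟨0, by omega⟩, ?_⟩
    intro i
    have : cls H (fun _ => (⟨0, by omega⟩ : Fin k)) i ≤ ⊥ := by
      intro x y hxy
      exact hcon x y hxy.1
    exact IsAcyclic.anti this isAcyclic_bot
  let G : SimpleGraph (Fin N) := H.deleteEdges {s(u, v)}
  have hGadj : ∀ x y, G.Adj x y ↔ H.Adj x y ∧ s(x, y) ≠ s(u, v) := by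
    intro x y
    show (H.deleteEdges {s(u, v)}).Adj x y ↔ _
    rw [deleteEdges_adj]
    simp
  have hGH : G ≤ H := fun x y h => ((hGadj x y).1 h).1
  have hdec : Dec G k := by
    by_contra hnd
    have := hH.2 hnd hGH
    have h2 := (hGadj u v).1 (this huv)
    exact h2.2 rfl
  have hns : ∀ c : G.edgeSet → Fin k, ¬ IsStronglyWoody G c :=
    fun c => exchange H G hk u v huv hGadj hH.1 c
  have harb : arb G ≤ k := Nat.sInf_le (woody_of_dec G hdec)
  refine ⟨Fin N, inferInstance, G, harb, ?_, ?_⟩
  · rw [le_egirth] at hg₀ ⊢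
    intro a w hw
    have hle' : G ≤ H₀ := hGH.trans hle
    have := hg₀ a (w.mapLe hle') ((Walk.isCycle_mapLe hle').2 hw)
    simpa using this
  · have : k + 1 ≤ strongArb G := by
      refine le_csInf (exists_strong G) ?_
      rintro m ⟨c, hc⟩
      by_contra hlt
      exact hns _ (strong_mono G (by omega) c hc)
    omega

end Pool.Agent.Results.MP_8cd00c_co.LargeGirthGap
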